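import Pool.Agent.W902.Q.Stm

set_option autoImplicit false

namespace Pool.Agent.W32.Q

open Finset Filter Topology
open Pool.Agent.W902.Q

/-! ### Counting functions with constraints -/

lemma card_constraint {ι X : Type} [Fintype ι] [DecidableEq ι] [Fintype X]
    (J : Finset ι) (S : Finset X) [DecidablePred fun f : ι → X => ∀ j ∈ J, f j ∈ S] :
    ((univ.filter fun f : ι → X => ∀ j ∈ J, f j ∈ S).card : ℝ) =
      (S.card : ℝ) ^ J.card * (Fintype.card X : ℝ) ^ (Fintype.card ι - J.card) := by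
  have h : (univ.filter fun f : ι → X => ∀ j ∈ J, f j ∈ S) =
      Fintype.piFinset (fun j => if j ∈ J then S else univ) := by
    ext f
    simp only [mem_filter, mem_univ, true_and, Fintype.mem_piFinset]
    constructor
    · intro hf j
      by_cases hj : j ∈ J
      · rw [if_pos hj]; exact hf j hj
      · rw [if_neg hj]; exact mem_univ _
    · intro hf j hj
      have := hf j
      rwa [if_pos hj] at this
  rw [h, Fintype.card_piFinset]
  push_cast
  have e : ∀ j : ι, (((if j ∈ J then S else univ : Finset X).card : ℕ) : ℝ) =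
      if j ∈ J then (S.card : ℝ) else (Fintype.card X : ℝ) := by
    intro j
    split_ifs
    · rfl
    · rw [Finset.card_univ]
  rw [prod_congr rfl fun j _ => e j, prod_ite, prod_const, prod_const]
  congr 2
  · congr 1
    ext j
    simp
  · have : (univ.filter fun j => j ∉ J) = Jᶜ := by
      ext j; simp
    rw [this, card_compl]

lemma card_constraint_le {ι X : Type} [Fintype ι] [DecidableEq ι] [Fintype X]
    (J : Finset ι) (S : Finset X) [DecidablePred fun f : ι → X => ∀ j ∈ J, f j ∈ S]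
    (q : ℝ) (hq : (S.card : ℝ) ≤ q * Fintype.card X) :
    ((univ.filter fun f : ι → X => ∀ j ∈ J, f j ∈ S).card : ℝ) ≤
      q ^ J.card * (Fintype.card X : ℝ) ^ (Fintype.card ι) := by
  rw [card_constraint]
  have hJ : J.card ≤ Fintype.card ι := card_le_univ J
  calc (S.card : ℝ) ^ J.card * (Fintype.card X : ℝ) ^ (Fintype.card ι - J.card)
      ≤ (q * Fintype.card X) ^ J.card * (Fintype.card X : ℝ) ^ (Fintype.card ι - J.card) :=
        mul_le_mul_of_nonneg_right (pow_le_pow_left₀ (Nat.cast_nonneg _) hq _) (by positivity)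
    _ = q ^ J.card * ((Fintype.card X : ℝ) ^ J.card *
          (Fintype.card X : ℝ) ^ (Fintype.card ι - J.card)) := by rw [mul_pow]; ring
    _ = _ := by rw [← pow_add, Nat.add_sub_cancel' hJ]

/-! ### One partition -/

open Classical in
/-- the partitions which are not good -/
noncomputable def Bad {n G r : ℕ} (Z : Fin r → Finset (Fin n)) : Finset (Fin n → Fin G) :=
  univ.filter fun π => ¬ Good π Z

lemma bad_card {n G r : ℕ} (hr : 1 ≤ r) (hG : 1 ≤ G) (Z : Fin r → Finset (Fin n))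
    (hZ : ∀ a, n / 2 ≤ (Z a).card) :
    ((Bad (G := G) Z).card : ℝ) ≤
      (r * 2 ^ G * (1 - 1 / (2 * r : ℝ)) ^ (n / 2)) * (G : ℝ) ^ n := by
  classical
  have hr0 : (1 : ℝ) ≤ r := by exact_mod_cast hr
  have hG0 : (1 : ℝ) ≤ G := by exact_mod_cast hG
  set ρ : ℝ := 1 - 1 / (2 * r : ℝ) with hρ
  have hi : 1 / (2 * r : ℝ) ≤ 1 / 2 := by
    apply one_div_le_one_div_of_le (by norm_num); linarith
  have hi0 : 0 < 1 / (2 * r : ℝ) := by positivity
  have hρ0 : 0 ≤ ρ := by rw [hρ]; linarith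
  have hρ1 : ρ ≤ 1 := by rw [hρ]; linarith
  let FF : Fin r → Finset (Fin G) → Finset (Fin n → Fin G) := fun a B =>
    univ.filter fun π => ∀ v ∈ Z a, π v ∈ Bᶜ
  have hsub : Bad (G := G) Z ⊆ (univ : Finset (Fin r)).biUnion fun a =>
      ((univ : Finset (Finset (Fin G))).filter fun B => G ≤ 2 * r * B.card).biUnion (FF a) := by
    intro π hπ
    unfold Bad at hπ
    rw [mem_filter] at hπ
    have hng := hπ.2
    unfold Good at hng
    push Not at hng
    -- the missed groups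
    let Bs : Fin r → Finset (Fin G) := fun a => univ.filter fun g => ∀ v ∈ Z a, π v ≠ g
    have hcov : (univ : Finset (Fin G)) ⊆
        (univ.filter fun g : Fin G => ∀ a, ∃ v ∈ Z a, π v = g) ∪
          (univ : Finset (Fin r)).biUnion Bs := by
      intro g _
      rw [mem_union]
      by_cases hg : ∀ a, ∃ v ∈ Z a, π v = g
      · exact Or.inl (mem_filter.2 ⟨mem_univ _, hg⟩)
      · push Not at hg
        obtain ⟨a, ha⟩ := hg
        exact Or.inr (mem_biUnion.2 ⟨a, mem_univ _, mem_filter.2 ⟨mem_univ _, ha⟩⟩)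
    have h1 := card_le_card hcov
    rw [card_univ, Fintype.card_fin] at h1
    have h2 := h1.trans (card_union_le _ _)
    have h3 : ((univ : Finset (Fin r)).biUnion Bs).card ≤ ∑ a, (Bs a).card := card_biUnion_le
    have h4 : ∃ a, G ≤ 2 * r * (Bs a).card := by
      by_contra hcon
      push Not at hcon
      have h5 : ∀ a : Fin r, 2 * r * (Bs a).card ≤ G := fun a => (hcon a).le
      have h6 : ∑ a : Fin r, 2 * r * (Bs a).card ≤ ∑ _a : Fin r, G := sum_le_sum fun a _ => h5 a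
      rw [← mul_sum, sum_const, card_univ, Fintype.card_fin, smul_eq_mul] at h6
      have h7 : 2 * ∑ a, (Bs a).card ≤ G := by
        have : r * (2 * ∑ a, (Bs a).card) ≤ r * G := by
          calc r * (2 * ∑ a, (Bs a).card) = 2 * r * ∑ a, (Bs a).card := by ring
            _ ≤ r * G := h6
        exact Nat.le_of_mul_le_mul_left this (by omega)
      omega
    obtain ⟨a, ha⟩ := h4
    rw [mem_biUnion]
    refine ⟨a, mem_univ _, ?_⟩
    rw [mem_biUnion]
    refine ⟨Bs a, mem_filter.2 ⟨mem_univ _, ha⟩, mem_filter.2 ⟨mem_univ _, fun v hv => ?_⟩⟩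
    rw [mem_compl]
    intro hmem
    exact (mem_filter.1 hmem).2 v hv rfl
  have hFF : ∀ a, ∀ B ∈ (univ : Finset (Finset (Fin G))).filter (fun B => G ≤ 2 * r * B.card),
      ((FF a B).card : ℝ) ≤ ρ ^ (n / 2) * (G : ℝ) ^ n := by
    intro a B hB
    rw [mem_filter] at hB
    have hBr : (G : ℝ) ≤ 2 * r * B.card := by exact_mod_cast hB.2
    have hc : ((Bᶜ.card : ℕ) : ℝ) ≤ ρ * Fintype.card (Fin G) := by
      rw [card_compl, Fintype.card_fin, Nat.cast_sub (by simpa using card_le_univ B), hρ]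
      have : (G : ℝ) / (2 * r) ≤ B.card := by
        rw [div_le_iff₀ (by positivity)]; linarith
      have e : (1 - 1 / (2 * r : ℝ)) * G = G - G / (2 * r) := by ring
      rw [e]
      linarith
    have h := card_constraint_le (Z a) Bᶜ ρ hc
    rw [Fintype.card_fin, Fintype.card_fin] at h
    refine h.trans (mul_le_mul_of_nonneg_right ?_ (by positivity))
    exact pow_le_pow_of_le_one hρ0 hρ1 (hZ a)
  have h1 : ((Bad (G := G) Z).card : ℝ) ≤ ∑ a : Fin r,
      ∑ B ∈ (univ : Finset (Finset (Fin G))).filter (fun B => G ≤ 2 * r * B.card),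
        ((FF a B).card : ℝ) := by
    have := (card_le_card hsub).trans (card_biUnion_le.trans (sum_le_sum fun a _ =>
      card_biUnion_le))
    exact_mod_cast this
  refine h1.trans ?_
  have h2 : ∀ a : Fin r,
      ∑ B ∈ (univ : Finset (Finset (Fin G))).filter (fun B => G ≤ 2 * r * B.card),
        ((FF a B).card : ℝ) ≤ 2 ^ G * (ρ ^ (n / 2) * (G : ℝ) ^ n) := by
    intro a
    refine (sum_le_card_nsmul _ _ _ (hFF a)).trans ?_
    rw [nsmul_eq_mul]
    refine mul_le_mul_of_nonneg_right ?_ (by positivity)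
    have : (((univ : Finset (Finset (Fin G))).filter fun B => G ≤ 2 * r * B.card).card : ℝ) ≤
        ((univ : Finset (Finset (Fin G))).card : ℝ) := by
      exact_mod_cast card_filter_le _ _
    refine this.trans ?_
    rw [card_univ, Fintype.card_finset, Fintype.card_fin]
    push_cast
    exact le_rfl
  refine (sum_le_sum fun a _ => h2 a).trans ?_
  rw [sum_const, card_univ, Fintype.card_fin, nsmul_eq_mul]
  apply le_of_eq
  ring

/-! ### The estimate for large `n` -/

lemma q_bound {r : ℕ} (hr : 1 ≤ r) {n G : ℕ} (hn : 8 * r * G ≤ n) :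
    (r * 2 ^ G * (1 - 1 / (2 * r : ℝ)) ^ (n / 2) : ℝ) ≤
      r * Real.exp 1 * Real.exp (-(n : ℝ) / (8 * r)) := by
  have hr0 : (1 : ℝ) ≤ r := by exact_mod_cast hr
  have hr' : (0 : ℝ) < r := by linarith
  have hi : 1 / (2 * r : ℝ) ≤ 1 / 2 := by
    apply one_div_le_one_div_of_le (by norm_num); linarith
  have h1 : (1 - 1 / (2 * r : ℝ)) ^ (n / 2) ≤ Real.exp (-(((n / 2 : ℕ) : ℝ) / (2 * r))) := by
    have : 1 - 1 / (2 * r : ℝ) ≤ Real.exp (-(1 / (2 * r : ℝ))) := by
      have := Real.add_one_le_exp (-(1 / (2 * r : ℝ)))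
      linarith
    refine (pow_le_pow_left₀ (by linarith) this _).trans ?_
    rw [← Real.exp_nat_mul]
    apply le_of_eq
    congr 1
    ring
  have h2 : (2 : ℝ) ^ G ≤ Real.exp (G : ℝ) := by
    have : (2 : ℝ) ≤ Real.exp 1 := by
      have := Real.add_one_le_exp (1 : ℝ); linarith
    calc (2 : ℝ) ^ G ≤ Real.exp 1 ^ G := pow_le_pow_left₀ (by norm_num) this _
      _ = Real.exp (G : ℝ) := by rw [← Real.exp_nat_mul, mul_one]
  have h3 : (G : ℝ) ≤ n / (8 * r) := by
    rw [le_div_iff₀ (by positivity)]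
    have : ((8 * r * G : ℕ) : ℝ) ≤ n := by exact_mod_cast hn
    push_cast at this
    linarith
  have h4 : (n : ℝ) / 2 - 1 ≤ ((n / 2 : ℕ) : ℝ) := by
    have : n ≤ 2 * (n / 2) + 1 := by omega
    have : (n : ℝ) ≤ 2 * ((n / 2 : ℕ) : ℝ) + 1 := by exact_mod_cast this
    linarith
  have h5 : (n : ℝ) / (4 * r) - 1 ≤ ((n / 2 : ℕ) : ℝ) / (2 * r) := by
    have e1 : ((n : ℝ) / 2 - 1) / (2 * r) ≤ ((n / 2 : ℕ) : ℝ) / (2 * r) :=
      div_le_div_of_nonneg_right h4 (by positivity)
    have e2 : ((n : ℝ) / 2 - 1) / (2 * r) = (n : ℝ) / (4 * r) - 1 / (2 * r) := by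
      field_simp
      ring
    rw [e2] at e1
    have e5 : 1 / (2 * r : ℝ) ≤ 1 := by linarith
    linarith
  have h0 : (0 : ℝ) ≤ (1 - 1 / (2 * r : ℝ)) ^ (n / 2) := pow_nonneg (by linarith) _
  calc (r * 2 ^ G * (1 - 1 / (2 * r : ℝ)) ^ (n / 2) : ℝ)
      ≤ r * Real.exp (G : ℝ) * Real.exp (-(((n / 2 : ℕ) : ℝ) / (2 * r))) := by
        apply mul_le_mul _ h1 h0 (by positivity)
        exact mul_le_mul_of_nonneg_left h2 hr'.le
    _ = r * Real.exp (G - ((n / 2 : ℕ) : ℝ) / (2 * r)) := by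
        rw [mul_assoc, ← Real.exp_add]; congr 2
    _ ≤ r * Real.exp (1 + -(n : ℝ) / (8 * r)) := by
        apply mul_le_mul_of_nonneg_left _ hr'.le
        apply Real.exp_le_exp.2
        have e3 : (n : ℝ) / (4 * r) = n / (8 * r) + n / (8 * r) := by ring
        have e4 : -(n : ℝ) / (8 * r) = -(n / (8 * r)) := by ring
        rw [e4]
        rw [e3] at h5
        linarith
    _ = _ := by rw [Real.exp_add, mul_assoc]

lemma large_n (r : ℕ) (hr : 1 ≤ r) (m : ℕ) : ∃ N : ℕ, ∀ n ≥ N, ∀ G : ℕ, 8 * r * G ≤ n →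
    (2 : ℝ) ^ (n * r) * 2 ^ m *
        (r * 2 ^ G * (1 - 1 / (2 * r : ℝ)) ^ (n / 2)) ^ (8 * r ^ 2 + 8 * r + 1) +
      m * (r * 2 ^ G * (1 - 1 / (2 * r : ℝ)) ^ (n / 2)) < 1 := by
  have hr0 : (1 : ℝ) ≤ r := by exact_mod_cast hr
  have hr' : (0 : ℝ) < r := by linarith
  set K : ℕ := 8 * r ^ 2 + 8 * r + 1 with hK
  have hlim : Tendsto (fun n : ℕ => (2 : ℝ) ^ m * (r * Real.exp 1) ^ K * Real.exp (-(n : ℝ)) +
      m * (r * Real.exp 1) * Real.exp (-((n : ℝ) / (8 * r)))) atTop
      (𝓝 ((2 : ℝ) ^ m * (r * Real.exp 1) ^ K * 0 + m * (r * Real.exp 1) * 0)) := by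
    refine Tendsto.add (Tendsto.const_mul _ ?_) (Tendsto.const_mul _ ?_)
    · exact Real.tendsto_exp_neg_atTop_nhds_zero.comp tendsto_natCast_atTop_atTop
    · exact Real.tendsto_exp_neg_atTop_nhds_zero.comp
        (tendsto_natCast_atTop_atTop.atTop_div_const (by positivity))
  rw [mul_zero, mul_zero, add_zero] at hlim
  obtain ⟨N, hN⟩ := (hlim.eventually_lt_const (show (0 : ℝ) < 1 by norm_num)).exists_forall_of_atTop
  refine ⟨N, fun n hn G hG => lt_of_le_of_lt ?_ (hN n hn)⟩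
  have hq := q_bound hr hG
  have hi : 1 / (2 * r : ℝ) ≤ 1 / 2 := by
    apply one_div_le_one_div_of_le (by norm_num); linarith
  have h0 : (0 : ℝ) ≤ (1 - 1 / (2 * r : ℝ)) ^ (n / 2) := pow_nonneg (by linarith) _
  set q : ℝ := r * 2 ^ G * (1 - 1 / (2 * r : ℝ)) ^ (n / 2) with hqd
  have hq0 : 0 ≤ q := by positivity
  have hQ : q ^ K ≤ (r * Real.exp 1) ^ K * Real.exp (-(n : ℝ) / (8 * r)) ^ K := by
    rw [← mul_pow]
    exact pow_le_pow_left₀ hq0 hq _
  have h2 : (2 : ℝ) ^ (n * r) ≤ Real.exp ((n : ℝ) * r) := by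
    have : (2 : ℝ) ≤ Real.exp 1 := by
      have := Real.add_one_le_exp (1 : ℝ); linarith
    calc (2 : ℝ) ^ (n * r) ≤ Real.exp 1 ^ (n * r) := pow_le_pow_left₀ (by norm_num) this _
      _ = Real.exp ((n : ℝ) * r) := by
          rw [← Real.exp_nat_mul, mul_one]; push_cast; rfl
  have h3 : Real.exp ((n : ℝ) * r) * Real.exp (-(n : ℝ) / (8 * r)) ^ K ≤ Real.exp (-(n : ℝ)) := by
    rw [← Real.exp_nat_mul, ← Real.exp_add]
    apply Real.exp_le_exp.2
    have hKr : (K : ℝ) = 8 * r ^ 2 + 8 * r + 1 := by rw [hK]; push_cast; ring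
    have e : (n : ℝ) * r + K * (-(n : ℝ) / (8 * r)) =
        -(n : ℝ) - n / (8 * r) := by
      rw [hKr]; field_simp; ring
    rw [e]
    have : (0 : ℝ) ≤ n / (8 * r) := by positivity
    linarith
  have p1 : (2 : ℝ) ^ (n * r) * 2 ^ m * q ^ K ≤
      (2 : ℝ) ^ m * (r * Real.exp 1) ^ K * Real.exp (-(n : ℝ)) := by
    calc (2 : ℝ) ^ (n * r) * 2 ^ m * q ^ K
        ≤ Real.exp ((n : ℝ) * r) * 2 ^ m *
            ((r * Real.exp 1) ^ K * Real.exp (-(n : ℝ) / (8 * r)) ^ K) :=
          mul_le_mul (mul_le_mul_of_nonneg_right h2 (by positivity)) hQ (by positivity)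
            (by positivity)
      _ = (2 : ℝ) ^ m * (r * Real.exp 1) ^ K *
            (Real.exp ((n : ℝ) * r) * Real.exp (-(n : ℝ) / (8 * r)) ^ K) := by ring
      _ ≤ _ := mul_le_mul_of_nonneg_left h3 (by positivity)
  have p2 : (m : ℝ) * q ≤ m * (r * Real.exp 1) * Real.exp (-((n : ℝ) / (8 * r))) := by
    rw [mul_assoc, ← neg_div]
    exact mul_le_mul_of_nonneg_left hq (Nat.cast_nonneg _)
  linarith

open Classical in
theorem main_hit : S_hit := by
  intro r hr
  refine ⟨8 * r ^ 2 + 8 * r, fun m => ?_⟩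
  obtain ⟨N, hN⟩ := large_n r hr m
  refine ⟨N, fun n hn G hG hnG => ?_⟩
  have hlt := hN n hn G hnG
  set q : ℝ := r * 2 ^ G * (1 - 1 / (2 * r : ℝ)) ^ (n / 2) with hq
  set L : ℕ := 8 * r ^ 2 + 8 * r with hL
  have hr0 : (1 : ℝ) ≤ r := by exact_mod_cast hr
  have hG0 : (0 : ℝ) < G := by exact_mod_cast hG
  have hi : 1 / (2 * r : ℝ) ≤ 1 / 2 := by
    apply one_div_le_one_div_of_le (by norm_num); linarith
  have h0 : (0 : ℝ) ≤ (1 - 1 / (2 * r : ℝ)) ^ (n / 2) := pow_nonneg (by linarith) _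
  have hq0 : 0 ≤ q := by positivity
  have hX : (Fintype.card (Fin n → Fin G) : ℝ) = (G : ℝ) ^ n := by
    rw [Fintype.card_fun, Fintype.card_fin, Fintype.card_fin]; push_cast; rfl
  have hbad : ∀ Z : Fin r → Finset (Fin n), (∀ a, n / 2 ≤ (Z a).card) →
      ((Bad (G := G) Z).card : ℝ) ≤ q * Fintype.card (Fin n → Fin G) := by
    intro Z hZ
    rw [hX]
    exact bad_card hr hG Z hZ
  let T1 : Finset (Fin m → Fin n → Fin G) :=
    ((univ : Finset (Fin r → Finset (Fin n))).filter fun Z => ∀ a, n / 2 ≤ (Z a).card).biUnion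
      fun Z => ((univ : Finset (Fin m)).powersetCard (L + 1)).biUnion fun J =>
        univ.filter fun π => ∀ j ∈ J, π j ∈ Bad Z
  let T2 : Finset (Fin m → Fin n → Fin G) :=
    (univ : Finset (Fin m)).biUnion fun j =>
      univ.filter fun π => ∀ i ∈ ({j} : Finset (Fin m)),
        π i ∈ Bad (fun _ : Fin r => (univ : Finset (Fin n)))
  set XX : ℝ := (Fintype.card (Fin n → Fin G) : ℝ) ^ m with hXX
  have hXX0 : 0 < XX := by rw [hXX, hX]; positivity
  have hT1 : (T1.card : ℝ) ≤ (2 : ℝ) ^ (n * r) * 2 ^ m * q ^ (L + 1) * XX := by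
    have c1 : (T1.card : ℝ) ≤
        ∑ Z ∈ (univ : Finset (Fin r → Finset (Fin n))).filter (fun Z => ∀ a, n / 2 ≤ (Z a).card),
          ∑ J ∈ (univ : Finset (Fin m)).powersetCard (L + 1),
            ((univ.filter fun π : Fin m → Fin n → Fin G => ∀ j ∈ J, π j ∈ Bad Z).card : ℝ) := by
      have := (card_biUnion_le (s := (univ : Finset (Fin r → Finset (Fin n))).filter
        (fun Z => ∀ a, n / 2 ≤ (Z a).card)) (t := fun Z =>
          ((univ : Finset (Fin m)).powersetCard (L + 1)).biUnion fun J =>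
        univ.filter fun π : Fin m → Fin n → Fin G => ∀ j ∈ J, π j ∈ Bad Z)).trans
        (sum_le_sum fun Z _ => card_biUnion_le)
      exact_mod_cast this
    have c2 : ∀ Z ∈ (univ : Finset (Fin r → Finset (Fin n))).filter
        (fun Z => ∀ a, n / 2 ≤ (Z a).card),
        ∑ J ∈ (univ : Finset (Fin m)).powersetCard (L + 1),
            ((univ.filter fun π : Fin m → Fin n → Fin G => ∀ j ∈ J, π j ∈ Bad Z).card : ℝ) ≤
          2 ^ m * (q ^ (L + 1) * XX) := by
      intro Z hZ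
      rw [mem_filter] at hZ
      refine (sum_le_card_nsmul _ _ (q ^ (L + 1) * XX) fun J hJ => ?_).trans ?_
      · have := card_constraint_le J (Bad (G := G) Z) q (hbad Z hZ.2)
        rw [(mem_powersetCard.1 hJ).2, Fintype.card_fin] at this
        exact this
      · rw [nsmul_eq_mul]
        refine mul_le_mul_of_nonneg_right ?_ (by positivity)
        rw [card_powersetCard, card_univ, Fintype.card_fin]
        exact_mod_cast Nat.choose_le_two_pow m (L + 1)
    refine c1.trans ((sum_le_card_nsmul _ _ _ c2).trans ?_)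
    rw [nsmul_eq_mul]
    have c3 : (((univ : Finset (Fin r → Finset (Fin n))).filter
        (fun Z => ∀ a, n / 2 ≤ (Z a).card)).card : ℝ) ≤ 2 ^ (n * r) := by
      have : ((univ : Finset (Fin r → Finset (Fin n))).filter
        (fun Z => ∀ a, n / 2 ≤ (Z a).card)).card ≤ 2 ^ (n * r) := by
        refine (card_filter_le _ _).trans ?_
        rw [card_univ, Fintype.card_fun, Fintype.card_finset, Fintype.card_fin, Fintype.card_fin,
          ← pow_mul]
      exact_mod_cast this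
    calc _ ≤ (2 : ℝ) ^ (n * r) * (2 ^ m * (q ^ (L + 1) * XX)) :=
          mul_le_mul_of_nonneg_right c3 (by positivity)
      _ = _ := by ring
  have hT2 : (T2.card : ℝ) ≤ m * q * XX := by
    have c1 : (T2.card : ℝ) ≤ ∑ j : Fin m, ((univ.filter fun π : Fin m → Fin n → Fin G =>
        ∀ i ∈ ({j} : Finset (Fin m)),
          π i ∈ Bad (fun _ : Fin r => (univ : Finset (Fin n)))).card : ℝ) := by
      have := card_biUnion_le (s := (univ : Finset (Fin m))) (t := fun j =>
        univ.filter fun π : Fin m → Fin n → Fin G => ∀ i ∈ ({j} : Finset (Fin m)),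
        π i ∈ Bad (fun _ : Fin r => (univ : Finset (Fin n))))
      exact_mod_cast this
    refine c1.trans ?_
    have c2 : ∀ j ∈ (univ : Finset (Fin m)), ((univ.filter fun π : Fin m → Fin n → Fin G =>
        ∀ i ∈ ({j} : Finset (Fin m)),
          π i ∈ Bad (fun _ : Fin r => (univ : Finset (Fin n)))).card : ℝ) ≤ q * XX := by
      intro j _
      have := card_constraint_le {j} (Bad (G := G) (fun _ : Fin r => (univ : Finset (Fin n)))) q
        (hbad _ (fun a => by rw [card_univ, Fintype.card_fin]; exact Nat.div_le_self n 2))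
      rw [card_singleton, pow_one, Fintype.card_fin] at this
      exact this
    refine (sum_le_card_nsmul _ _ _ c2).trans ?_
    rw [card_univ, Fintype.card_fin, nsmul_eq_mul]
    apply le_of_eq
    ring
  have hex : ∃ π : Fin m → Fin n → Fin G, π ∉ T1 ∪ T2 := by
    by_contra hcon
    push Not at hcon
    have hu : T1 ∪ T2 = univ := eq_univ_iff_forall.2 hcon
    have h1 : (((T1 ∪ T2).card : ℕ) : ℝ) ≤ (T1.card : ℝ) + T2.card := by
      exact_mod_cast card_union_le T1 T2
    have h2 : ((univ : Finset (Fin m → Fin n → Fin G)).card : ℝ) = XX := by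
      rw [card_univ, Fintype.card_fun, Fintype.card_fin]
      push_cast
      rfl
    rw [hu, h2] at h1
    have h3 : (2 : ℝ) ^ (n * r) * 2 ^ m * q ^ (L + 1) * XX + m * q * XX =
        ((2 : ℝ) ^ (n * r) * 2 ^ m * q ^ (L + 1) + m * q) * XX := by ring
    have h4 : ((2 : ℝ) ^ (n * r) * 2 ^ m * q ^ (L + 1) + m * q) * XX < 1 * XX :=
      mul_lt_mul_of_pos_right hlt hXX0
    linarith
  obtain ⟨π, hπ⟩ := hex
  rw [mem_union, not_or] at hπ
  refine ⟨π, fun Z hZ => ?_, fun j => ?_⟩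
  · by_contra hcon
    push Not at hcon
    obtain ⟨J, hJ1, hJ2⟩ := exists_subset_card_eq (show L + 1 ≤ _ from hcon)
    apply hπ.1
    refine mem_biUnion.2 ⟨Z, mem_filter.2 ⟨mem_univ _, hZ⟩, mem_biUnion.2 ⟨J, ?_, ?_⟩⟩
    · exact mem_powersetCard.2 ⟨subset_univ _, hJ2⟩
    · refine mem_filter.2 ⟨mem_univ _, fun j hj => ?_⟩
      exact mem_filter.2 ⟨mem_univ _, (mem_filter.1 (hJ1 hj)).2⟩
  · by_contra hcon
    apply hπ.2
    refine mem_biUnion.2 ⟨j, mem_univ _, mem_filter.2 ⟨mem_univ _, fun i hi => ?_⟩⟩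
    rw [mem_singleton] at hi
    subst hi
    exact mem_filter.2 ⟨mem_univ _, hcon⟩

end Pool.Agent.W32.Q
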